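import Mathlib

/-! q-factorials on the integers, the kernel lemma and the four kernels. -/

namespace Q203.QB
open Finset

variable {K : Type*} [Field K]

/-- `q` is nonzero and not a root of unity. -/
structure Adm (q : K) : Prop where
  ne0 : q ≠ 0
  ne1 : ∀ n : ℕ, 0 < n → q ^ n ≠ 1

/-- the bracket of an integer. -/
def br (q : K) (z : ℤ) : K := (1 - q ^ z) / (1 - q)

/-- the factorial. -/
def fac (q : K) (n : ℕ) : K := ∏ i ∈ range n, br q ((i : ℤ) + 1)

/-- the reciprocal factorial on the integers. -/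
def rf (q : K) (z : ℤ) : K := if z < 0 then 0 else (fac q z.toNat)⁻¹

/-- the symmetric weight. -/
def rho (q : K) (k n : ℤ) : K := rf q (n + k) * rf q (n - k)

variable {q : K}

lemma Adm.one_sub (h : Adm q) : (1 : K) - q ≠ 0 := by
  have := h.ne1 1 one_pos
  rw [pow_one] at this
  exact sub_ne_zero.mpr (Ne.symm this)

lemma br_zero : br q 0 = 0 := by simp [br]

lemma br_one (h : Adm q) : br q 1 = 1 := by
  have := h.one_sub
  simp [br, this]

lemma br_add (h : Adm q) (a b : ℤ) : br q (a + b) = br q a + q ^ a * br q b := by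
  have := h.one_sub
  unfold br
  rw [zpow_add₀ h.ne0]
  field_simp
  ring

lemma br_ne (h : Adm q) {n : ℕ} (hn : 0 < n) : br q (n : ℤ) ≠ 0 := by
  have h1 := h.one_sub
  have h2 := h.ne1 n hn
  unfold br
  rw [zpow_natCast]
  exact div_ne_zero (sub_ne_zero.mpr (Ne.symm h2)) h1

lemma fac_zero : fac q 0 = 1 := by simp [fac]

lemma fac_succ (n : ℕ) : fac q (n + 1) = fac q n * br q ((n : ℤ) + 1) := by
  simp [fac, Finset.prod_range_succ]

lemma fac_ne (h : Adm q) (n : ℕ) : fac q n ≠ 0 := by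
  unfold fac
  refine Finset.prod_ne_zero_iff.mpr (fun i _ => ?_)
  have := br_ne h (n := i + 1) (Nat.succ_pos _)
  push_cast at this
  exact this

lemma rf_neg {z : ℤ} (hz : z < 0) : rf q z = 0 := by simp [rf, hz]

lemma rf_nat (n : ℕ) : rf q (n : ℤ) = (fac q n)⁻¹ := by
  simp [rf]

lemma fac_mul_rf (h : Adm q) (n : ℕ) : fac q n * rf q (n : ℤ) = 1 := by
  rw [rf_nat, mul_inv_cancel₀ (fac_ne h n)]

lemma br_mul_rf (h : Adm q) (z : ℤ) : br q z * rf q z = rf q (z - 1) := by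
  rcases lt_trichotomy z 0 with hz | hz | hz
  · rw [rf_neg hz, rf_neg (by omega), mul_zero]
  · subst hz
    rw [br_zero, zero_mul, rf_neg (by norm_num)]
  · obtain ⟨n, rfl⟩ : ∃ n : ℕ, z = (n : ℤ) + 1 := ⟨(z - 1).toNat, by omega⟩
    have h1 : ((n : ℤ) + 1) = ((n + 1 : ℕ) : ℤ) := by push_cast; ring
    have h2 : ((n : ℤ) + 1 - 1) = (n : ℤ) := by ring
    rw [h2, rf_nat]
    have h3 : rf q ((n : ℤ) + 1) = (fac q (n + 1))⁻¹ := by rw [h1, rf_nat]
    have h4 : br q ((n : ℤ) + 1) ≠ 0 := by rw [h1]; exact br_ne h (Nat.succ_pos _)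
    rw [h3, fac_succ, mul_inv, ← mul_assoc, mul_comm (br q _), mul_assoc,
      mul_inv_cancel₀ h4, mul_one]

/-- the node. -/
def xx (q : K) (z : ℤ) : K := q ^ (-z) * br q z ^ 2

lemma xx_sub (h : Adm q) (n k : ℤ) :
    xx q n - xx q k = q ^ (-n) * (br q (n - k) * br q (n + k)) := by
  have h1 := h.one_sub
  have h0 := h.ne0
  have e1 : q ^ (-n) = (q ^ n)⁻¹ := zpow_neg _ _
  have e2 : q ^ (-k) = (q ^ k)⁻¹ := zpow_neg _ _
  have e3 : q ^ (n - k) = q ^ n / q ^ k := zpow_sub₀ h0 _ _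
  have e4 : q ^ (n + k) = q ^ n * q ^ k := zpow_add₀ h0 _ _
  have n1 : q ^ n ≠ 0 := zpow_ne_zero _ h0
  have n2 : q ^ k ≠ 0 := zpow_ne_zero _ h0
  unfold xx br
  rw [e1, e2, e3, e4]
  field_simp
  ring

lemma xx_rho (h : Adm q) (n k : ℤ) :
    (xx q n - xx q k) * rho q k n = q ^ (-n) * rho q k (n - 1) := by
  have h1 := br_mul_rf h (n - k)
  have h2 := br_mul_rf h (n + k)
  have e1 : n - k - 1 = n - 1 - k := by ring
  have e2 : n + k - 1 = n - 1 + k := by ring
  rw [e1] at h1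
  rw [e2] at h2
  rw [xx_sub h]
  unfold rho
  rw [← h1, ← h2]
  ring

lemma rho_zero_of_lt {k n : ℤ} (hk : n < k) : rho q k n = 0 := by
  unfold rho
  rw [rf_neg (by omega : n - k < 0), mul_zero]

/-- the kernel lemma. -/
theorem kernel (h : Adm q) (f : ℕ → K) (c : ℕ → ℕ → K) (h1 : ∀ n, c n n = f n)
    (h2 : ∀ n s : ℕ, s ≤ n → c (n + 1) s * (br q ((n : ℤ) + 1 - s) * br q ((n : ℤ) + 1 + s))
      + c (n + 1) (s + 1) * q ^ ((n : ℤ) - s) = c n s) (n k : ℕ) :
    f k * rho q k n = ∑ s ∈ range (n + 1), c n s * rho q k s := by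
  induction n with
  | zero =>
    rw [zero_add, Finset.sum_range_one]
    rcases Nat.eq_zero_or_pos k with hk | hk
    · subst hk; rw [h1]
    · rw [rho_zero_of_lt (by exact_mod_cast hk), mul_zero, mul_zero]
  | succ n ih =>
    rcases lt_trichotomy k (n + 1) with hk | hk | hk
    · have h0 := h.ne0
      have hx : xx q ((n + 1 : ℕ) : ℤ) - xx q (k : ℤ) ≠ 0 := by
        rw [xx_sub h]
        have a1 : ((n + 1 : ℕ) : ℤ) - k = ((n + 1 - k : ℕ) : ℤ) := by omega
        have a2 : ((n + 1 : ℕ) : ℤ) + k = ((n + 1 + k : ℕ) : ℤ) := by omega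
        rw [a1, a2]
        exact mul_ne_zero (zpow_ne_zero _ h0)
          (mul_ne_zero (br_ne h (by omega)) (br_ne h (by omega)))
      apply mul_left_cancel₀ hx
      have L : (xx q ((n + 1 : ℕ) : ℤ) - xx q (k : ℤ)) * (f k * rho q k ((n + 1 : ℕ) : ℤ))
          = q ^ (-((n : ℤ) + 1)) * ∑ s ∈ range (n + 1), c n s * rho q k s := by
        rw [← ih]
        have := xx_rho h ((n + 1 : ℕ) : ℤ) k
        have e : (((n + 1 : ℕ) : ℤ) - 1) = (n : ℤ) := by push_cast; ring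
        rw [e] at this
        push_cast at this ⊢
        linear_combination (f k) * this
      rw [L]
      have R : (xx q ((n + 1 : ℕ) : ℤ) - xx q (k : ℤ)) *
          ∑ s ∈ range (n + 1 + 1), c (n + 1) s * rho q k s
          = ∑ s ∈ range (n + 1 + 1), (c (n + 1) s * (xx q ((n + 1 : ℕ) : ℤ) - xx q (s : ℤ)))
              * rho q k s
            + ∑ s ∈ range (n + 1 + 1), c (n + 1) s * (q ^ (-(s : ℤ)) * rho q k ((s : ℤ) - 1)) := by
        rw [Finset.mul_sum, ← Finset.sum_add_distrib]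
        refine Finset.sum_congr rfl (fun s _ => ?_)
        rw [← xx_rho h (s : ℤ) k]
        ring
      rw [R, Finset.sum_range_succ (fun s => c (n + 1) s *
          (xx q ((n + 1 : ℕ) : ℤ) - xx q (s : ℤ)) * rho q k s) (n + 1),
        sub_self, mul_zero, zero_mul, add_zero,
        Finset.sum_range_succ' (fun s => c (n + 1) s * (q ^ (-(s : ℤ)) * rho q k ((s : ℤ) - 1)))]
      have z : rho q (k : ℤ) (((0 : ℕ) : ℤ) - 1) = 0 := by
        unfold rho
        rw [rf_neg (by omega : ((0 : ℕ) : ℤ) - 1 - k < 0), mul_zero]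
      rw [z, mul_zero, mul_zero, add_zero, Finset.mul_sum, ← Finset.sum_add_distrib]
      refine Finset.sum_congr rfl (fun s hs => ?_)
      have hs' : s ≤ n := by have := Finset.mem_range.mp hs; omega
      have key := h2 n s hs'
      have e : (((s + 1 : ℕ) : ℤ) - 1) = (s : ℤ) := by push_cast; ring
      rw [e, xx_sub h, ← key]
      have e2 : q ^ (-((s + 1 : ℕ) : ℤ)) = q ^ (-((n : ℤ) + 1)) * q ^ ((n : ℤ) - s) := by
        rw [← zpow_add₀ h0]; congr 1; push_cast; ring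
      rw [e2]
      push_cast
      ring
    · subst hk
      rw [Finset.sum_range_succ, Finset.sum_eq_zero, zero_add, h1]
      intro s hs
      rw [rho_zero_of_lt (by exact_mod_cast Finset.mem_range.mp hs), mul_zero]
    · rw [rho_zero_of_lt (by exact_mod_cast hk), mul_zero, Finset.sum_eq_zero]
      intro s hs
      rw [rho_zero_of_lt (by have := Finset.mem_range.mp hs; omega), mul_zero]

/-- kernel A. -/
theorem kernelA (h : Adm q) (n n' k : ℕ) :
    q ^ (((k : ℤ)) ^ 2) * rho q k n' * rho q k n * fac q (n + n')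
      = ∑ s ∈ range (n + 1),
        (q ^ ((s : ℤ) ^ 2) * (rf q ((n : ℤ) - s) * rf q ((n' : ℤ) - s))) * rho q k s := by
  have main := kernel h (fun k => q ^ (((k : ℤ)) ^ 2) * rho q k n')
    (fun n s => q ^ ((s : ℤ) ^ 2) * (rf q ((n : ℤ) - s) * rf q ((n' : ℤ) - s))
      * rf q ((n : ℤ) + n')) ?_ ?_ n k
  · beta_reduce at main
    rw [mul_comm, main, Finset.mul_sum]
    refine Finset.sum_congr rfl (fun s _ => ?_)
    have := fac_mul_rf h (n + n')
    push_cast at this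
    linear_combination (q ^ ((s : ℤ) ^ 2) * (rf q ((n : ℤ) - s) * rf q ((n' : ℤ) - s))) *
      rho q k s * this
  · intro n
    simp only [sub_self]
    have : rf q 0 = 1 := by
      have := rf_nat (q := q) 0
      simpa [fac_zero] using this
    rw [this]
    unfold rho
    rw [add_comm (n : ℤ) n']
    ring
  · intro n s hs
    have a1 := br_mul_rf h ((n : ℤ) + 1 - s)
    have a2 := br_mul_rf h ((n' : ℤ) - s)
    have a3 := br_mul_rf h ((n : ℤ) + 1 + n')
    have a4 := br_add h ((n : ℤ) + 1 + s) ((n' : ℤ) - s)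
    have e1 : (n : ℤ) + 1 - s - 1 = n - s := by ring
    have e3 : (n : ℤ) + 1 + n' - 1 = n + n' := by ring
    have e4 : (n : ℤ) + 1 + s + (n' - s) = n + 1 + n' := by ring
    rw [e1] at a1
    rw [e3] at a3
    rw [e4] at a4
    have e5 : (((n + 1 : ℕ) : ℤ)) - ((s + 1 : ℕ) : ℤ) = n - s := by push_cast; ring
    have e6 : ((n' : ℤ)) - ((s + 1 : ℕ) : ℤ) = n' - s - 1 := by push_cast; ring
    have e7 : q ^ ((((s + 1 : ℕ) : ℤ)) ^ 2) * q ^ ((n : ℤ) - s) =
        q ^ ((s : ℤ) ^ 2) * q ^ ((n : ℤ) + 1 + s) := by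
      rw [← zpow_add₀ h.ne0, ← zpow_add₀ h.ne0]; congr 1; push_cast; ring
    rw [e5, e6, ← a2]
    push_cast at e7 ⊢
    rw [← a3]
    calc _ = q ^ ((s : ℤ) ^ 2) * rf q ((n' : ℤ) - s) * rf q ((n : ℤ) + 1 + n') *
          ((br q ((n : ℤ) + 1 - s) * rf q ((n : ℤ) + 1 - s)) * br q ((n : ℤ) + 1 + s))
          + (q ^ (((s : ℤ) + 1) ^ 2) * q ^ ((n : ℤ) - s)) * rf q ((n : ℤ) - s)
            * (br q ((n' : ℤ) - s) * rf q ((n' : ℤ) - s)) * rf q ((n : ℤ) + 1 + n') := by ring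
      _ = _ := by
        rw [a1, e7, a4]; ring

/-- kernel B. -/
theorem kernelB (h : Adm q) (n n' k : ℕ) :
    rho q k n' * rho q k n * fac q (n + n')
      = ∑ s ∈ range (n + 1),
        (q ^ (((n : ℤ) - s) * (n' - s)) * (rf q ((n : ℤ) - s) * rf q ((n' : ℤ) - s)))
          * rho q k s := by
  have main := kernel h (fun k => rho q k n')
    (fun n s => q ^ (((n : ℤ) - s) * (n' - s)) * (rf q ((n : ℤ) - s) * rf q ((n' : ℤ) - s))
      * rf q ((n : ℤ) + n')) ?_ ?_ n k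
  · beta_reduce at main
    rw [mul_comm, main, Finset.mul_sum]
    refine Finset.sum_congr rfl (fun s _ => ?_)
    have := fac_mul_rf h (n + n')
    push_cast at this
    linear_combination (q ^ (((n : ℤ) - s) * (n' - s)) *
      (rf q ((n : ℤ) - s) * rf q ((n' : ℤ) - s))) * rho q k s * this
  · intro n
    simp only [sub_self]
    have : rf q 0 = 1 := by
      have := rf_nat (q := q) 0
      simpa [fac_zero] using this
    rw [this]
    unfold rho
    rw [add_comm (n : ℤ) n', zero_mul, zpow_zero]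
    ring
  · intro n s hs
    have a1 := br_mul_rf h ((n : ℤ) + 1 - s)
    have a2 := br_mul_rf h ((n' : ℤ) - s)
    have a3 := br_mul_rf h ((n : ℤ) + 1 + n')
    have a4 := br_add h ((n' : ℤ) - s) ((n : ℤ) + 1 + s)
    have e1 : (n : ℤ) + 1 - s - 1 = n - s := by ring
    have e3 : (n : ℤ) + 1 + n' - 1 = n + n' := by ring
    have e4 : ((n' : ℤ) - s) + ((n : ℤ) + 1 + s) = n + 1 + n' := by ring
    rw [e1] at a1
    rw [e3] at a3
    rw [e4] at a4
    have e5 : (((n + 1 : ℕ) : ℤ)) - ((s + 1 : ℕ) : ℤ) = n - s := by push_cast; ring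
    have e6 : ((n' : ℤ)) - ((s + 1 : ℕ) : ℤ) = n' - s - 1 := by push_cast; ring
    have e7 : q ^ (((n : ℤ) - s) * (n' - s - 1)) * q ^ ((n : ℤ) - s) =
        q ^ (((n : ℤ) - s) * (n' - s)) := by
      rw [← zpow_add₀ h.ne0]; congr 1; ring
    have e8 : q ^ (((n : ℤ) + 1 - s) * (n' - s)) =
        q ^ (((n : ℤ) - s) * (n' - s)) * q ^ ((n' : ℤ) - s) := by
      rw [← zpow_add₀ h.ne0]; congr 1; ring
    rw [e5, e6, ← a2]
    push_cast
    rw [← a3, e8]
    calc _ = q ^ (((n : ℤ) - s) * (n' - s)) * q ^ ((n' : ℤ) - s) *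
          rf q ((n' : ℤ) - s) * rf q ((n : ℤ) + 1 + n') *
          ((br q ((n : ℤ) + 1 - s) * rf q ((n : ℤ) + 1 - s)) * br q ((n : ℤ) + 1 + s))
          + (q ^ (((n : ℤ) - s) * (n' - s - 1)) * q ^ ((n : ℤ) - s)) * rf q ((n : ℤ) - s)
            * (br q ((n' : ℤ) - s) * rf q ((n' : ℤ) - s)) * rf q ((n : ℤ) + 1 + n') := by ring
      _ = _ := by
        rw [a1, e7, a4]; ring

/-- kernel C. -/
theorem kernelC (h : Adm q) (n k : ℕ) :
    q ^ (((k : ℤ)) ^ 2) * rho q k n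
      = ∑ s ∈ range (n + 1),
        (q ^ ((s : ℤ) ^ 2) * (1 - q) ^ (n - s) * rf q ((n : ℤ) - s)) * rho q k s := by
  refine kernel h (fun k => q ^ (((k : ℤ)) ^ 2))
    (fun n s => q ^ ((s : ℤ) ^ 2) * (1 - q) ^ (n - s) * rf q ((n : ℤ) - s)) ?_ ?_ n k
  · intro n
    have : rf q 0 = 1 := by
      have := rf_nat (q := q) 0
      simpa [fac_zero] using this
    simp [this]
  · intro n s hs
    have a1 := br_mul_rf h ((n : ℤ) + 1 - s)
    have e1 : (n : ℤ) + 1 - s - 1 = n - s := by ring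
    rw [e1] at a1
    have e5 : (((n + 1 : ℕ) : ℤ)) - ((s + 1 : ℕ) : ℤ) = n - s := by push_cast; ring
    have e7 : q ^ ((((s + 1 : ℕ) : ℤ)) ^ 2) * q ^ ((n : ℤ) - s) =
        q ^ ((s : ℤ) ^ 2) * q ^ ((n : ℤ) + 1 + s) := by
      rw [← zpow_add₀ h.ne0, ← zpow_add₀ h.ne0]; congr 1; push_cast; ring
    have e8 : (1 - q) * br q ((n : ℤ) + 1 + s) = 1 - q ^ ((n : ℤ) + 1 + s) := by
      unfold br
      have := h.one_sub
      field_simp
    have e9 : n + 1 - s = (n - s) + 1 := by omega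
    have e10 : n + 1 - (s + 1) = n - s := by omega
    rw [e5, e9, e10, pow_succ]
    push_cast at e7 ⊢
    calc _ = q ^ ((s : ℤ) ^ 2) * (1 - q) ^ (n - s) * (br q ((n : ℤ) + 1 - s) *
          rf q ((n : ℤ) + 1 - s)) * ((1 - q) * br q ((n : ℤ) + 1 + s))
          + (q ^ (((s : ℤ) + 1) ^ 2) * q ^ ((n : ℤ) - s)) * (1 - q) ^ (n - s)
            * rf q ((n : ℤ) - s) := by ring
      _ = _ := by
        rw [a1, e7, e8]; ring

/-- the exponent of kernel D. -/
def ee (n s : ℕ) : ℤ := -((n : ℤ) * s) - (∑ i ∈ range (n + 1), (i : ℤ))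
  + ∑ i ∈ range (s + 1), (i : ℤ)

lemma ee_self (n : ℕ) : ee n n = -((n : ℤ)) ^ 2 := by
  unfold ee; ring

lemma ee_succ_succ (n s : ℕ) : ee (n + 1) (s + 1) = ee (n + 1) s - ((n : ℤ) - s) := by
  unfold ee
  rw [Finset.sum_range_succ (fun i : ℕ => (i : ℤ)) (s + 1)]
  push_cast; ring

lemma ee_succ (n s : ℕ) : ee n s = ee (n + 1) s + ((n : ℤ) + 1 + s) := by
  unfold ee
  rw [Finset.sum_range_succ (fun i : ℕ => (i : ℤ)) (n + 1)]
  push_cast; ring

/-- kernel D. -/
theorem kernelD (h : Adm q) (n k : ℕ) :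
    q ^ (-((k : ℤ)) ^ 2) * rho q k n
      = ∑ s ∈ range (n + 1),
        (q ^ (ee n s) * (-(1 - q)) ^ (n - s) * rf q ((n : ℤ) - s)) * rho q k s := by
  refine kernel h (fun k => q ^ (-((k : ℤ)) ^ 2))
    (fun n s => q ^ (ee n s) * (-(1 - q)) ^ (n - s) * rf q ((n : ℤ) - s)) ?_ ?_ n k
  · intro n
    have : rf q 0 = 1 := by
      have := rf_nat (q := q) 0
      simpa [fac_zero] using this
    simp [this, ee_self]
  · intro n s hs
    have a1 := br_mul_rf h ((n : ℤ) + 1 - s)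
    have e1 : (n : ℤ) + 1 - s - 1 = n - s := by ring
    rw [e1] at a1
    have e5 : (((n + 1 : ℕ) : ℤ)) - ((s + 1 : ℕ) : ℤ) = n - s := by push_cast; ring
    have e7 : q ^ (ee (n + 1) (s + 1)) * q ^ ((n : ℤ) - s) = q ^ (ee (n + 1) s) := by
      rw [← zpow_add₀ h.ne0, ee_succ_succ]; congr 1; ring
    have e7' : q ^ (ee n s) = q ^ (ee (n + 1) s) * q ^ ((n : ℤ) + 1 + s) := by
      rw [← zpow_add₀ h.ne0, ee_succ]
    have e8 : (1 - q) * br q ((n : ℤ) + 1 + s) = 1 - q ^ ((n : ℤ) + 1 + s) := by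
      unfold br
      have := h.one_sub
      field_simp
    have e9 : n + 1 - s = (n - s) + 1 := by omega
    have e10 : n + 1 - (s + 1) = n - s := by omega
    rw [e5, e9, e10, pow_succ, e7']
    push_cast
    calc _ = -(q ^ (ee (n + 1) s) * (-(1 - q)) ^ (n - s) * (br q ((n : ℤ) + 1 - s) *
          rf q ((n : ℤ) + 1 - s)) * ((1 - q) * br q ((n : ℤ) + 1 + s)))
          + (q ^ (ee (n + 1) (s + 1)) * q ^ ((n : ℤ) - s)) * (-(1 - q)) ^ (n - s)
            * rf q ((n : ℤ) - s) := by ring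
      _ = _ := by
        rw [a1, e7, e8]; ring

end Q203.QB
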