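import Pool.Agent.Q203.QB.Pos

/-! The general theorem in terms of chains. -/

namespace Q203.QB
open Finset

variable {K : Type*} [Field K] {q : K}

/-- the weight. -/
def ww (q : K) (j : ℤ) (a r : ℕ) (k : ℕ) : K :=
  if a ≤ k then q ^ (j * (k : ℤ) ^ 2 - ((r : ℤ) + 1) * k) * br q (2 * (k : ℤ)) *
    br q (k : ℤ) ^ (2 * r) else 0

lemma ww_zero (j : ℤ) (a r k : ℕ) (hk : k < max a 1) : ww q j a r k = 0 := by
  unfold ww
  split_ifs with h
  · have : k = 0 := by omega
    subst this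
    simp [br_zero]
  · rfl

lemma ww_add (h : Adm q) (j j' : ℤ) (a r k : ℕ) :
    ww q (j + j') a r k = q ^ (j' * (k : ℤ) ^ 2) * ww q j a r k := by
  unfold ww
  split_ifs with hk
  · have : q ^ ((j + j') * (k : ℤ) ^ 2 - ((r : ℤ) + 1) * k) =
      q ^ (j' * (k : ℤ) ^ 2) * q ^ (j * (k : ℤ) ^ 2 - ((r : ℤ) + 1) * k) := by
      rw [← zpow_add₀ h.ne0]; congr 1; ring
    rw [this]; ring
  · simp

lemma SS_base (h : Adm q) (j : ℤ) (a r n : ℕ) :
    SS q a (ww q j a r) n [] = fac q (n - a) * fac q (n + a - 1) *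
      bb q (fun k => q ^ (j * (k : ℤ) ^ 2)) a (n + 1) r 0 (n : ℤ) := by
  unfold SS bb ww
  simp only [chain, List.map_nil, List.prod_nil, mul_one, Finset.range_zero, Finset.prod_empty]
  congr 1
  refine Finset.sum_congr rfl (fun k _ => ?_)
  split_ifs with hk
  · have e1 : q ^ (j * (k : ℤ) ^ 2 - ((r : ℤ) + 1) * k) =
        q ^ (j * (k : ℤ) ^ 2) * q ^ (-(k : ℤ)) * (q ^ (-(k : ℤ))) ^ r := by
      rw [← zpow_natCast (q ^ (-(k : ℤ))) r, ← zpow_mul, ← zpow_add₀ h.ne0, ← zpow_add₀ h.ne0]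
      congr 1; ring
    unfold xx
    rw [e1, mul_pow, ← pow_mul]
    ring
  · simp

theorem pos_zero (h : Adm q) {S : Subsemiring K} (hq : q ∈ S) (hq' : q⁻¹ ∈ S)
    (a r n : ℕ) (han : a ≤ n) (hn : 1 ≤ n) : SS q a (ww q 0 a r) n [] ∈ S := by
  rw [SS_base h]
  have e : (fun k : ℕ => q ^ ((0 : ℤ) * (k : ℤ) ^ 2)) = fun _ => 1 := by
    funext k; simp
  rw [e]
  refine bb_mem h hq hq' _ a (n + 1) n han hn (fun i => q ^ (-((i : ℤ) + 1) * n))
    (fun i => zpow_mem' hq hq' _) (fun i => ?_) r 0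
  exact bb_formula h a (n + 1) i n (by push_cast; omega)

theorem pos_one (h : Adm q) {S : Subsemiring K} (hq : q ∈ S) (hq' : q⁻¹ ∈ S)
    (a r n : ℕ) (han : a ≤ n) (hn : 1 ≤ n) : SS q a (ww q 1 a r) n [] ∈ S := by
  rw [SS_base h]
  have e : (fun k : ℕ => q ^ ((1 : ℤ) * (k : ℤ) ^ 2)) = fun k : ℕ => q ^ ((k : ℤ) ^ 2) := by
    funext k; simp
  rw [e]
  refine bb_mem h hq hq' _ a (n + 1) n han hn
    (fun i => q ^ ((a : ℤ) ^ 2 - a + i * (a - 1)))
    (fun i => zpow_mem' hq hq' _) (fun i => ?_) r 0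
  exact bb_formula' h a (n + 1) i n (by push_cast; omega)

/-- positivity. -/
theorem positive (h : Adm q) {S : Subsemiring K} (hq : q ∈ S) (hq' : q⁻¹ ∈ S)
    (a r : ℕ) (rest : List ℕ) : ∀ (n : ℕ) (j : ℤ), a ≤ n → 1 ≤ n → (∀ t ∈ rest, 1 ≤ t) →
    0 ≤ j → j ≤ rest.length + 1 → SS q a (ww q j a r) n rest ∈ S := by
  induction rest with
  | nil =>
    intro n j han hn _ hj hj'
    simp only [List.length_nil] at hj'
    have : j = 0 ∨ j = 1 := by push_cast at hj'; omega
    rcases this with rfl | rfl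
    · exact pos_zero h hq hq' a r n han hn
    · exact pos_one h hq hq' a r n han hn
  | cons n' rest ih =>
    intro n j han hn hr hj hj'
    have hr' : ∀ t ∈ rest, 1 ≤ t := fun t ht => hr t (List.mem_cons_of_mem _ ht)
    simp only [List.length_cons] at hj'
    push_cast at hj'
    rcases lt_or_ge ((rest.length : ℤ) + 1) j with hc | hc
    · refine stepA h hq hq' a _ (ww q (j - 1) a r) n n' rest han hr' (fun k => ?_)
        (fun k hk => ww_zero _ _ _ _ hk) (fun s hs hsn => ?_)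
      · have := ww_add h (j - 1) 1 a r k
        rw [sub_add_cancel, one_mul] at this
        exact this
      · exact ih s (j - 1) (by omega) (by omega) hr' (by omega) (by omega)
    · refine stepB h hq hq' a _ n n' rest han hr' 
        (fun k hk => ww_zero _ _ _ _ hk) (fun s hs hsn => ?_)
      exact ih s j (by omega) (by omega) hr' (by omega) (by omega)

theorem laurent_one (h : Adm q) {S : Subsemiring K} (hq : q ∈ S) (hq' : q⁻¹ ∈ S)
    (hm : (-1 : K) ∈ S) (a r : ℕ) (j : ℤ) : ∀ (n : ℕ), a ≤ n → 1 ≤ n →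
    SS q a (ww q j a r) n [] ∈ S := by
  have h1 : (1 - q) ∈ S := by
    have e : 1 - q = 1 + (-1) * q := by ring
    rw [e]; exact S.add_mem S.one_mem (S.mul_mem hm hq)
  have h2 : (-(1 - q)) ∈ S := by
    have e : -(1 - q) = q + (-1) := by ring
    rw [e]; exact S.add_mem hq hm
  induction j using Int.induction_on with
  | zero =>
    intro n han hn
    exact pos_zero h hq hq' a r n han hn
  | succ i ih =>
    intro n han hn
    refine step_one h hq a _ (ww q (i : ℤ) a r) (fun k => q ^ ((k : ℤ) ^ 2)) n han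
      (fun s => q ^ ((s : ℤ) ^ 2) * (1 - q) ^ (n - s))
      (fun s => S.mul_mem (zpow_mem' hq hq' _) (S.pow_mem h1 _)) (fun k => ?_)
      (fun k hk => ww_zero _ _ _ _ hk) (fun k => kernelC h n k)
      (fun s hs hsn => ih s (by omega) (by omega))
    have := ww_add h (i : ℤ) 1 a r k
    rw [one_mul] at this
    exact this
  | pred i ih =>
    intro n han hn
    refine step_one h hq a _ (ww q (-(i : ℤ)) a r) (fun k => q ^ (-((k : ℤ)) ^ 2)) n han
      (fun s => q ^ (ee n s) * (-(1 - q)) ^ (n - s))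
      (fun s => S.mul_mem (zpow_mem' hq hq' _) (S.pow_mem h2 _)) (fun k => ?_)
      (fun k hk => ww_zero _ _ _ _ hk) (fun k => kernelD h n k)
      (fun s hs hsn => ih s (by omega) (by omega))
    have := ww_add h (-(i : ℤ)) (-1) a r k
    have e : (-1 : ℤ) * (k : ℤ) ^ 2 = -(k : ℤ) ^ 2 := by ring
    rw [e] at this
    exact this

/-- integrality. -/
theorem laurent (h : Adm q) {S : Subsemiring K} (hq : q ∈ S) (hq' : q⁻¹ ∈ S)
    (hm : (-1 : K) ∈ S) (a r : ℕ) (j : ℤ) (rest : List ℕ) : ∀ (n : ℕ), a ≤ n → 1 ≤ n →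
    (∀ t ∈ rest, 1 ≤ t) → SS q a (ww q j a r) n rest ∈ S := by
  induction rest with
  | nil =>
    intro n han hn _
    exact laurent_one h hq hq' hm a r j n han hn
  | cons n' rest ih =>
    intro n han hn hr
    have hr' : ∀ t ∈ rest, 1 ≤ t := fun t ht => hr t (List.mem_cons_of_mem _ ht)
    exact stepB h hq hq' a _ n n' rest han hr' 
        (fun k hk => ww_zero _ _ _ _ hk) (fun s hs hsn => ih s (by omega) (by omega) hr')

/-! ### The definitions of the problem -/

/-- the Gaussian coefficient. -/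
def qb (q : K) (N k : ℕ) : K :=
  if k ≤ N then ∏ i ∈ Icc 1 k, (1 - q ^ (N - k + i)) / (1 - q ^ i) else 0

lemma one_sub_pow (h : Adm q) (n : ℕ) : 1 - q ^ n = (1 - q) * br q (n : ℤ) := by
  unfold br
  have := h.one_sub
  rw [zpow_natCast]
  field_simp

lemma qb_aux (h : Adm q) (D k : ℕ) :
    (∏ i ∈ Icc 1 k, (1 - q ^ (D + i)) / (1 - q ^ i)) = fac q (D + k) * (fac q k)⁻¹ * (fac q D)⁻¹ := by
  induction k with
  | zero => simp [fac_zero, mul_inv_cancel₀ (fac_ne h D)]
  | succ k ih =>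
    rw [Finset.prod_Icc_succ_top (by omega), ih, one_sub_pow h, one_sub_pow h, ← add_assoc,
      fac_succ, fac_succ]
    have n1 := h.one_sub
    have n2 := fac_ne h k
    have n3 := fac_ne h D
    have n4 : br q ((k : ℤ) + 1) ≠ 0 := by
      have := br_ne h (Nat.succ_pos k); push_cast at this; exact this
    push_cast
    field_simp

lemma qb_eq (h : Adm q) (N k : ℕ) : qb q N k = fac q N * rf q (k : ℤ) * rf q ((N : ℤ) - k) := by
  unfold qb
  split_ifs with hk
  · obtain ⟨D, rfl⟩ := Nat.exists_eq_add_of_le' hk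
    have e : D + k - k = D := by omega
    have e' : (((D + k : ℕ) : ℤ)) - k = (D : ℤ) := by push_cast; ring
    rw [e, qb_aux h, e', rf_nat, rf_nat]
  · rw [rf_neg (by omega : (N : ℤ) - k < 0), mul_zero]

lemma prod_cyc (f : ℕ → K) (m : ℕ) :
    ∏ i ∈ range (m + 1), f ((i + 1) % (m + 1)) = ∏ i ∈ range (m + 1), f i := by
  rw [Finset.prod_range_succ, Nat.mod_self, Finset.prod_range_succ' f]
  congr 1
  refine Finset.prod_congr rfl (fun i hi => ?_)
  rw [Nat.mod_eq_of_lt (by have := Finset.mem_range.mp hi; omega)]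

lemma chain_range (n : ℕ → ℕ) (a m : ℕ) : ∀ t : ℕ,
    chain q a (n t) ((List.range' (t + 1) m).map n) =
      (∏ i ∈ range m, fac q (n (t + i) + n (t + i + 1))) * fac q (n (t + m) + a - 1) := by
  induction m with
  | zero => intro t; simp [chain]
  | succ m ih =>
    intro t
    rw [List.range'_succ, List.map_cons, chain, ih (t + 1), Finset.prod_range_succ']
    have e : t + (m + 1) = t + 1 + m := by ring
    rw [e]
    have e2 : (∏ i ∈ range m, fac q (n (t + (i + 1)) + n (t + (i + 1) + 1)))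
        = ∏ i ∈ range m, fac q (n (t + 1 + i) + n (t + 1 + i + 1)) :=
      Finset.prod_congr rfl (fun i _ => by rw [show t + (i + 1) = t + 1 + i by ring])
    rw [e2, add_zero]
    ring

lemma list_prod_range (f : ℕ → K) (n : ℕ → ℕ) (m : ℕ) : ∀ t : ℕ,
    (((List.range' t m).map n).map f).prod = ∏ i ∈ range m, f (n (t + i)) := by
  induction m with
  | zero => intro t; simp
  | succ m ih =>
    intro t
    rw [List.range'_succ, List.map_cons, List.map_cons, List.prod_cons, ih (t + 1),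
      Finset.prod_range_succ']
    have e2 : (∏ i ∈ range m, f (n (t + (i + 1)))) = ∏ i ∈ range m, f (n (t + 1 + i)) :=
      Finset.prod_congr rfl (fun i _ => by rw [show t + (i + 1) = t + 1 + i by ring])
    rw [e2, add_zero]
    ring

lemma P_eq (h : Adm q) (n : ℕ → ℕ) (m k : ℕ) :
    ∏ i ∈ range (m + 1), qb q (n ((i + 1) % (m + 1)) + n i) (k + n i)
      = (∏ i ∈ range m, fac q (n i + n (i + 1))) * fac q (n m + n 0) *
        ∏ i ∈ range (m + 1), rho q k (n i) := by
  have e : ∀ i ∈ range (m + 1), qb q (n ((i + 1) % (m + 1)) + n i) (k + n i)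
      = fac q (n i + n ((i + 1) % (m + 1))) * (rf q ((n i : ℤ) + k) *
        rf q ((n ((i + 1) % (m + 1)) : ℤ) - k)) := by
    intro i _
    rw [qb_eq h]
    have e1 : ((k + n i : ℕ) : ℤ) = (n i : ℤ) + k := by push_cast; ring
    have e2 : ((n ((i + 1) % (m + 1)) + n i : ℕ) : ℤ) - ((k + n i : ℕ) : ℤ)
      = (n ((i + 1) % (m + 1)) : ℤ) - k := by push_cast; ring
    rw [e2, e1, add_comm (n _) (n i)]
    ring
  rw [Finset.prod_congr rfl e, Finset.prod_mul_distrib, Finset.prod_mul_distrib,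
    prod_cyc (fun t => rf q ((n t : ℤ) - k)), ← Finset.prod_mul_distrib]
  congr 1
  rw [Finset.prod_range_succ, Nat.mod_self]
  congr 1
  refine Finset.prod_congr rfl (fun i hi => ?_)
  rw [Nat.mod_eq_of_lt (by have := Finset.mem_range.mp hi; omega)]

/-- the fraction of the problem. -/
theorem quotient_eq (h : Adm q) (n : ℕ → ℕ) (m a r : ℕ) (j : ℤ) (han : a ≤ n 0)
    (hpos : ∀ i ≤ m, 0 < n i) :
    (∑ k ∈ Icc a (n 0), (q ^ (j * (k : ℤ) ^ 2 - ((r : ℤ) + 1) * k) * br q ((2 * k : ℕ) : ℤ) *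
      br q (k : ℤ) ^ (2 * r)) *
      ∏ i ∈ range (m + 1), qb q (n ((i + 1) % (m + 1)) + n i) (k + n i)) /
      (br q ((n m + a : ℕ) : ℤ) * qb q (n m + n 0) (n 0 - a))
    = SS q a (ww q j a r) (n 0) ((List.range' 1 m).map n) := by
  have hden : br q ((n m + a : ℕ) : ℤ) * qb q (n m + n 0) (n 0 - a)
      = fac q (n m + n 0) * (fac q (n 0 - a))⁻¹ * (fac q (n m + a - 1))⁻¹ := by
    rw [qb_eq h]
    have e : ((n m + n 0 : ℕ) : ℤ) - ((n 0 - a : ℕ) : ℤ) = ((n m + a : ℕ) : ℤ) := by omega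
    rw [e, rf_nat (n 0 - a)]
    have b := br_mul_rf h ((n m + a : ℕ) : ℤ)
    have hp := hpos m le_rfl
    have e2 : ((n m + a : ℕ) : ℤ) - 1 = ((n m + a - 1 : ℕ) : ℤ) := by omega
    rw [e2, rf_nat (n m + a - 1)] at b
    rw [← b]
    ring
  have f1 := fac_ne h (n m + n 0)
  have f2 := fac_ne h (n 0 - a)
  have f3 := fac_ne h (n m + a - 1)
  rw [hden]
  unfold SS
  have hc := chain_range (q := q) n a m 0
  simp only [zero_add] at hc
  rw [hc]
  have hnum : (∑ k ∈ Icc a (n 0), (q ^ (j * (k : ℤ) ^ 2 - ((r : ℤ) + 1) * k) *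
      br q ((2 * k : ℕ) : ℤ) * br q (k : ℤ) ^ (2 * r)) *
      ∏ i ∈ range (m + 1), qb q (n ((i + 1) % (m + 1)) + n i) (k + n i))
      = ((∏ i ∈ range m, fac q (n i + n (i + 1))) * fac q (n m + n 0)) *
      ∑ k ∈ range (n 0 + 1), ww q j a r k * rho q k (n 0) *
        (((List.range' 1 m).map n).map (fun t : ℕ => rho q k t)).prod := by
    rw [Finset.mul_sum]
    have hsub : Icc a (n 0) ⊆ range (n 0 + 1) := by
      intro k hk
      have := Finset.mem_Icc.mp hk
      exact Finset.mem_range.mpr (by omega)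
    rw [← Finset.sum_subset hsub]
    · refine Finset.sum_congr rfl (fun k hk => ?_)
      have hk' := Finset.mem_Icc.mp hk
      rw [P_eq h, list_prod_range (fun t : ℕ => rho q k t), Finset.prod_range_succ']
      unfold ww
      rw [if_pos hk'.1]
      have e2 : ∀ i, 1 + i = i + 1 := fun i => by ring
      simp only [e2]
      push_cast
      ring
    · intro k hk hk'
      have : k < a := by
        have := Finset.mem_range.mp hk
        by_contra hc
        exact hk' (Finset.mem_Icc.mpr ⟨by omega, by omega⟩)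
      unfold ww
      rw [if_neg (by omega)]
      ring
  rw [hnum]
  field_simp

end Q203.QB
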