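import Pool.Agent.Q203.QB.Core

/-! Membership in subsemirings, the step from `m` to `m - 1`, the case `m = 1`. -/

namespace Q203.QB
open Finset

variable {K : Type*} [Field K] {q : K}

lemma zpow_mem' {M : Subsemiring K} (hq : q ∈ M) (hq' : q⁻¹ ∈ M) (z : ℤ) : q ^ z ∈ M := by
  rcases z with n | n
  · simpa using M.pow_mem hq n
  · rw [zpow_negSucc, ← inv_pow]
    exact M.pow_mem hq' (n + 1)

lemma br_nat (h : Adm q) (n : ℕ) : br q (n : ℤ) = ∑ i ∈ range n, q ^ i := by
  induction n with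
  | zero => simp [br]
  | succ n ih =>
    rw [Finset.sum_range_succ, ← ih]
    push_cast
    rw [br_add h, br_one h, mul_one, zpow_natCast]

lemma br_mem (h : Adm q) {M : Subsemiring K} (hq : q ∈ M) (n : ℕ) : br q (n : ℤ) ∈ M := by
  rw [br_nat h]
  exact M.sum_mem (fun i _ => M.pow_mem hq i)

lemma fac_mem (h : Adm q) {M : Subsemiring K} (hq : q ∈ M) (n : ℕ) : fac q n ∈ M := by
  unfold fac
  refine M.prod_mem (fun i _ => ?_)
  have := br_mem h hq (i + 1)
  push_cast at this
  exact this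

lemma fac_div (h : Adm q) {M : Subsemiring K} (hq : q ∈ M) (s d : ℕ) :
    fac q (s + d) * (fac q s)⁻¹ ∈ M := by
  induction d with
  | zero => simpa [mul_inv_cancel₀ (fac_ne h s)] using M.one_mem
  | succ d ih =>
    rw [← add_assoc, fac_succ]
    have := br_mem h hq (s + d + 1)
    push_cast at this
    have e : fac q (s + d) * br q ((s + d : ℕ) + 1) * (fac q s)⁻¹
        = (fac q (s + d) * (fac q s)⁻¹) * br q ((s : ℤ) + d + 1) := by
      push_cast; ring
    rw [e]
    exact M.mul_mem ih this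

lemma fac_div_le (h : Adm q) {M : Subsemiring K} (hq : q ∈ M) {s n : ℕ} (hs : s ≤ n) :
    fac q n * (fac q s)⁻¹ ∈ M := by
  obtain ⟨d, rfl⟩ := Nat.exists_eq_add_of_le hs
  exact fac_div h hq s d

/-- the Gaussian binomial. -/
lemma gauss_mem (h : Adm q) {M : Subsemiring K} (hq : q ∈ M) (n : ℕ) :
    ∀ s : ℤ, fac q n * rf q s * rf q ((n : ℤ) - s) ∈ M := by
  induction n with
  | zero =>
    intro s
    rcases lt_trichotomy s 0 with hs | hs | hs
    · rw [rf_neg hs]; simpa using M.zero_mem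
    · subst hs
      have := rf_nat (q := q) 0
      have e : rf q 0 = 1 := by simpa [fac_zero] using this
      simpa [e, fac_zero] using M.one_mem
    · rw [rf_neg (by push_cast; omega : ((0 : ℕ) : ℤ) - s < 0)]; simpa using M.zero_mem
  | succ n ih =>
    intro s
    rcases lt_or_ge s 0 with hs | hs
    · rw [rf_neg hs]; simpa using M.zero_mem
    · obtain ⟨t, rfl⟩ : ∃ t : ℕ, s = t := ⟨s.toNat, by omega⟩
      have a := br_add h (t : ℤ) ((n : ℤ) + 1 - t)
      have e1 : (t : ℤ) + ((n : ℤ) + 1 - t) = n + 1 := by ring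
      rw [e1] at a
      have b1 := br_mul_rf h (t : ℤ)
      have b2 := br_mul_rf h ((n : ℤ) + 1 - t)
      have e2 : (n : ℤ) + 1 - t - 1 = n - t := by ring
      have e3 : ((n : ℤ) - ((t : ℤ) - 1)) = n + 1 - t := by ring
      rw [e2] at b2
      have k1 := ih ((t : ℤ) - 1)
      have k2 := ih (t : ℤ)
      rw [e3] at k1
      have e : fac q (n + 1) * rf q (t : ℤ) * rf q (((n + 1 : ℕ) : ℤ) - t)
          = fac q n * rf q ((t : ℤ) - 1) * rf q ((n : ℤ) + 1 - t)
            + q ^ t * (fac q n * rf q (t : ℤ) * rf q ((n : ℤ) - t)) := by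
        rw [fac_succ, a, ← b1, ← b2, zpow_natCast]
        push_cast
        ring
      rw [e]
      exact M.add_mem k1 (M.mul_mem (M.pow_mem hq t) k2)

lemma xx_mem (h : Adm q) {M : Subsemiring K} (hq : q ∈ M) (hq' : q⁻¹ ∈ M) (n : ℕ) :
    xx q (n : ℤ) ∈ M :=
  M.mul_mem (zpow_mem' hq hq' _) (M.pow_mem (br_mem h hq n) 2)

/-! ### The case `m = 1` -/

/-- the base sum. -/
def bb (q : K) (v : ℕ → K) (a M : ℕ) (r i : ℕ) (n : ℤ) : K :=
  ∑ k ∈ range M, if a ≤ k then
    v k * (q ^ (-(k : ℤ)) * br q (2 * (k : ℤ))) * xx q k ^ r *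
      (∏ l ∈ range i, (xx q k - xx q ((a + l : ℕ) : ℤ))) * rho q k n else 0

lemma tele (g : ℕ → K) (a M : ℕ) :
    (∑ k ∈ range M, if a ≤ k then g k - g (k + 1) else 0) = if a ≤ M then g a - g M else 0 := by
  induction M with
  | zero =>
    rcases Nat.eq_zero_or_pos a with h | h
    · subst h; simp
    · simp [Nat.not_le.mpr h]
  | succ M ih =>
    rw [Finset.sum_range_succ, ih]
    rcases lt_trichotomy a (M + 1) with h | h | h
    · have h1 : a ≤ M := by omega
      have h2 : a ≤ M + 1 := by omega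
      simp [h1, h2]
    · subst h
      simp
    · have h1 : ¬ a ≤ M := by omega
      have h2 : ¬ a ≤ M + 1 := by omega
      simp [h1, h2]

lemma bb_zero (h : Adm q) (a M : ℕ) (n : ℤ) (hn : n < M) :
    bb q (fun _ => 1) a M 0 0 n = q ^ (-n) * (rf q (n - a) * rf q (n + a - 1)) := by
  have h0 := h.ne0
  have : bb q (fun _ => 1) a M 0 0 n = q ^ (-n) * ∑ k ∈ range M, if a ≤ k then
      (fun k : ℕ => rf q (n + k - 1) * rf q (n - k)) k -
      (fun k : ℕ => rf q (n + k - 1) * rf q (n - k)) (k + 1) else 0 := by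
    unfold bb
    rw [Finset.mul_sum]
    refine Finset.sum_congr rfl (fun k _ => ?_)
    split_ifs with hk
    · simp only [pow_zero, mul_one, one_mul, Finset.range_zero, Finset.prod_empty]
      have a1 := br_mul_rf h (n + k)
      have a2 := br_mul_rf h (n - k)
      have a3 := br_add h (n - k) (2 * (k : ℤ))
      have e1 : n - k + 2 * (k : ℤ) = n + k := by ring
      rw [e1] at a3
      have e2 : n + ((k + 1 : ℕ) : ℤ) - 1 = n + k := by push_cast; ring
      have e3 : n - ((k + 1 : ℕ) : ℤ) = n - k - 1 := by push_cast; ring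
      rw [e2, e3, ← a1, ← a2, a3]
      unfold rho
      have e4 : q ^ (-n) * q ^ (n - k) = q ^ (-(k : ℤ)) := by
        rw [← zpow_add₀ h0]; congr 1; ring
      rw [← e4]
      ring
    · simp
  rw [this, tele]
  split_ifs with ha
  · rw [rf_neg (by omega : n - (M : ℤ) < 0), mul_zero, sub_zero]
    ring
  · rw [rf_neg (by omega : n - (a : ℤ) < 0)]
    ring

lemma bb_zero' (h : Adm q) (a M : ℕ) (n : ℤ) (hn : n < M) :
    bb q (fun k => q ^ ((k : ℤ) ^ 2)) a M 0 0 n
      = q ^ ((a : ℤ) ^ 2 - a) * (rf q (n - a) * rf q (n + a - 1)) := by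
  have h0 := h.ne0
  have : bb q (fun k => q ^ ((k : ℤ) ^ 2)) a M 0 0 n = ∑ k ∈ range M, if a ≤ k then
      (fun k : ℕ => q ^ ((k : ℤ) ^ 2 - k) * (rf q (n + k - 1) * rf q (n - k))) k -
      (fun k : ℕ => q ^ ((k : ℤ) ^ 2 - k) * (rf q (n + k - 1) * rf q (n - k))) (k + 1)
        else 0 := by
    unfold bb
    refine Finset.sum_congr rfl (fun k _ => ?_)
    split_ifs with hk
    · simp only [pow_zero, mul_one, Finset.range_zero, Finset.prod_empty]
      have a1 := br_mul_rf h (n + k)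
      have a2 := br_mul_rf h (n - k)
      have a3 := br_add h (2 * (k : ℤ)) (n - k)
      have e1 : 2 * (k : ℤ) + (n - k) = n + k := by ring
      rw [e1] at a3
      have e2 : n + ((k + 1 : ℕ) : ℤ) - 1 = n + k := by push_cast; ring
      have e3 : n - ((k + 1 : ℕ) : ℤ) = n - k - 1 := by push_cast; ring
      rw [e2, e3, ← a1, ← a2, a3]
      unfold rho
      have e4 : q ^ ((k : ℤ) ^ 2) * q ^ (-(k : ℤ)) = q ^ ((k : ℤ) ^ 2 - k) := by
        rw [← zpow_add₀ h0]; congr 1
      have e5 : q ^ (((k + 1 : ℕ) : ℤ) ^ 2 - ((k + 1 : ℕ) : ℤ)) =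
          q ^ ((k : ℤ) ^ 2 - k) * q ^ (2 * (k : ℤ)) := by
        rw [← zpow_add₀ h0]; congr 1; push_cast; ring
      rw [e5, ← e4]
      ring
    · rfl
  rw [this, tele]
  split_ifs with ha
  · rw [rf_neg (by omega : n - (M : ℤ) < 0), mul_zero, mul_zero, sub_zero]
    ring
  · rw [rf_neg (by omega : n - (a : ℤ) < 0)]
    ring

lemma bb_succ (h : Adm q) (v : ℕ → K) (a M : ℕ) (i : ℕ) (n : ℤ) :
    bb q v a M 0 (i + 1) n = (xx q n - xx q ((a + i : ℕ) : ℤ)) * bb q v a M 0 i n
      - q ^ (-n) * bb q v a M 0 i (n - 1) := by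
  unfold bb
  rw [Finset.mul_sum, Finset.mul_sum, ← Finset.sum_sub_distrib]
  refine Finset.sum_congr rfl (fun k _ => ?_)
  split_ifs with hk
  · rw [Finset.prod_range_succ]
    have := xx_rho h n (k : ℤ)
    linear_combination (-(v k * (q ^ (-(k : ℤ)) * br q (2 * (k : ℤ))) * xx q k ^ 0 *
      (∏ l ∈ range i, (xx q k - xx q ((a + l : ℕ) : ℤ))))) * this
  · simp

lemma bb_formula (h : Adm q) (a M : ℕ) (i : ℕ) :
    ∀ n : ℤ, n < M → bb q (fun _ => 1) a M 0 i n =
      q ^ (-((i : ℤ) + 1) * n) * (fac q i * (rf q (n - a - i) * rf q (n + a - 1))) := by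
  have h0 := h.ne0
  induction i with
  | zero =>
    intro n hn
    rw [bb_zero h a M n hn, fac_zero]
    push_cast
    simp
  | succ i ih =>
    intro n hn
    rw [bb_succ h, ih n hn, ih (n - 1) (by omega), xx_sub h, fac_succ]
    have a1 := br_mul_rf h (n - ((a + i : ℕ) : ℤ))
    have a2 := br_mul_rf h (n + a - 1)
    have a3 := br_add h ((i : ℤ) + 1) (n + a - 1)
    have e1 : n - ((a + i : ℕ) : ℤ) = n - a - i := by push_cast; ring
    have e2 : (i : ℤ) + 1 + (n + a - 1) = n + ((a + i : ℕ) : ℤ) := by push_cast; ring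
    rw [e1] at a1
    rw [e2] at a3
    have e3 : n - 1 - a - i = n - a - i - 1 := by ring
    have e4 : n - 1 + a - 1 = n + a - 1 - 1 := by ring
    have e5 : n - a - ((i + 1 : ℕ) : ℤ) = n - a - i - 1 := by push_cast; ring
    have e6 : q ^ (-n) * q ^ (-((i : ℤ) + 1) * n) = q ^ (-(((i + 1 : ℕ) : ℤ) + 1) * n) := by
      rw [← zpow_add₀ h0]; congr 1; push_cast; ring
    have e7 : q ^ (-n) * q ^ (-((i : ℤ) + 1) * (n - 1)) =
        q ^ (-(((i + 1 : ℕ) : ℤ) + 1) * n) * q ^ ((i : ℤ) + 1) := by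
      rw [← zpow_add₀ h0, ← zpow_add₀ h0]; congr 1; push_cast; ring
    rw [e1, e3, e4, e5, ← a2]
    calc _ = (q ^ (-n) * q ^ (-((i : ℤ) + 1) * n)) * br q (n + ((a + i : ℕ) : ℤ)) * fac q i *
          ((br q (n - a - i) * rf q (n - a - i)) * rf q (n + a - 1))
          - (q ^ (-n) * q ^ (-((i : ℤ) + 1) * (n - 1))) * fac q i *
          (rf q (n - a - i - 1) * (br q (n + a - 1) * rf q (n + a - 1))) := by ring
      _ = _ := by
        rw [e6, e7, a1, a3]; ring

lemma bb_formula' (h : Adm q) (a M : ℕ) (i : ℕ) :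
    ∀ n : ℤ, n < M → bb q (fun k => q ^ ((k : ℤ) ^ 2)) a M 0 i n =
      q ^ ((a : ℤ) ^ 2 - a + i * (a - 1)) *
        (fac q i * (rf q (n - a - i) * rf q (n + a - 1))) := by
  have h0 := h.ne0
  induction i with
  | zero =>
    intro n hn
    rw [bb_zero' h a M n hn, fac_zero]
    push_cast
    simp
  | succ i ih =>
    intro n hn
    rw [bb_succ h, ih n hn, ih (n - 1) (by omega), xx_sub h, fac_succ]
    have a1 := br_mul_rf h (n - ((a + i : ℕ) : ℤ))
    have a2 := br_mul_rf h (n + a - 1)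
    have a3 := br_add h (n + a - 1) ((i : ℤ) + 1)
    have e1 : n - ((a + i : ℕ) : ℤ) = n - a - i := by push_cast; ring
    have e2 : (n + a - 1) + ((i : ℤ) + 1) = n + ((a + i : ℕ) : ℤ) := by push_cast; ring
    rw [e1] at a1
    rw [e2] at a3
    have e3 : n - 1 - a - i = n - a - i - 1 := by ring
    have e4 : n - 1 + a - 1 = n + a - 1 - 1 := by ring
    have e5 : n - a - ((i + 1 : ℕ) : ℤ) = n - a - i - 1 := by push_cast; ring
    have e6 : q ^ (-n) * q ^ ((a : ℤ) ^ 2 - a + i * (a - 1)) * q ^ (n + a - 1) =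
        q ^ ((a : ℤ) ^ 2 - a + ((i + 1 : ℕ) : ℤ) * (a - 1)) := by
      rw [← zpow_add₀ h0, ← zpow_add₀ h0]; congr 1; push_cast; ring
    rw [e1, e3, e4, e5, ← a2, ← e6]
    calc _ = (q ^ (-n) * q ^ ((a : ℤ) ^ 2 - a + i * (a - 1))) *
          br q (n + ((a + i : ℕ) : ℤ)) * fac q i *
          ((br q (n - a - i) * rf q (n - a - i)) * rf q (n + a - 1))
          - (q ^ (-n) * q ^ ((a : ℤ) ^ 2 - a + i * (a - 1))) * fac q i *
          (rf q (n - a - i - 1) * (br q (n + a - 1) * rf q (n + a - 1))) := by ring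
      _ = _ := by
        rw [a1, a3]; ring

lemma bb_mem (h : Adm q) {S : Subsemiring K} (hq : q ∈ S) (hq' : q⁻¹ ∈ S) (v : ℕ → K)
    (a M n : ℕ) (han : a ≤ n) (hn1 : 1 ≤ n)
    (C : ℕ → K) (hC : ∀ i, C i ∈ S)
    (hF : ∀ i, bb q v a M 0 i (n : ℤ) = C i *
      (fac q i * (rf q ((n : ℤ) - a - i) * rf q ((n : ℤ) + a - 1)))) (r : ℕ) :
    ∀ i : ℕ, fac q (n - a) * fac q (n + a - 1) * bb q v a M r i (n : ℤ) ∈ S := by
  induction r with
  | zero =>
    intro i
    rw [hF i]
    have e1 : (n : ℤ) + a - 1 = ((n + a - 1 : ℕ) : ℤ) := by omega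
    have e2 : (n : ℤ) - a - i = ((n - a : ℕ) : ℤ) - i := by omega
    have e3 := fac_mul_rf h (n + a - 1)
    rw [e1, e2]
    have e4 := fac_mul_rf h i
    have : fac q (n - a) * fac q (n + a - 1) * (C i * (fac q i *
        (rf q (((n - a : ℕ) : ℤ) - i) * rf q ((n + a - 1 : ℕ) : ℤ))))
        = (fac q (n + a - 1) * rf q ((n + a - 1 : ℕ) : ℤ)) * (fac q i * rf q i) *
          (C i * fac q i * (fac q (n - a) *
        rf q (((n - a : ℕ) : ℤ) - i))) := by rw [e4]; ring
    rw [this, e3, e4, one_mul, one_mul]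
    refine S.mul_mem (S.mul_mem (hC i) (fac_mem h hq i)) ?_
    have g := S.mul_mem (fac_mem h hq i) (gauss_mem h hq (n - a) i)
    have : fac q i * (fac q (n - a) * rf q (i : ℤ) * rf q (((n - a : ℕ) : ℤ) - i))
        = (fac q i * rf q i) * (fac q (n - a) * rf q (((n - a : ℕ) : ℤ) - i)) := by ring
    rw [this, e4, one_mul] at g
    exact g
  | succ r ih =>
    intro i
    have : bb q v a M (r + 1) i (n : ℤ) = bb q v a M r (i + 1) n
        + xx q ((a + i : ℕ) : ℤ) * bb q v a M r i n := by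
      unfold bb
      rw [Finset.mul_sum, ← Finset.sum_add_distrib]
      refine Finset.sum_congr rfl (fun k _ => ?_)
      split_ifs with hk
      · rw [Finset.prod_range_succ, pow_succ]
        ring
      · simp
    rw [this, mul_add]
    refine S.add_mem (ih (i + 1)) ?_
    have e : fac q (n - a) * fac q (n + a - 1) * (xx q ((a + i : ℕ) : ℤ) * bb q v a M r i n)
      = xx q ((a + i : ℕ) : ℤ) * (fac q (n - a) * fac q (n + a - 1) * bb q v a M r i n) := by
      ring
    rw [e]
    exact S.mul_mem (xx_mem h hq hq' _) (ih i)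

/-! ### Chains -/

/-- product of the factorials along the chain. -/
def chain (q : K) (a : ℕ) : ℕ → List ℕ → K
  | n, [] => fac q (n + a - 1)
  | n, n' :: rest => fac q (n + n') * chain q a n' rest

/-- the normalised sum. -/
def SS (q : K) (a : ℕ) (W : ℕ → K) (n : ℕ) (rest : List ℕ) : K :=
  fac q (n - a) * chain q a n rest *
    ∑ k ∈ range (n + 1), W k * rho q k n * (rest.map (fun t : ℕ => rho q k t)).prod

lemma chain_ne (h : Adm q) (a n : ℕ) (rest : List ℕ) : chain q a n rest ≠ 0 := by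
  induction rest generalizing n with
  | nil => exact fac_ne h _
  | cons n' rest ih => exact mul_ne_zero (fac_ne h _) (ih n')

lemma chain_div (h : Adm q) {S : Subsemiring K} (hq : q ∈ S) (a n s : ℕ) (rest : List ℕ)
    (hs : 1 ≤ s) (hr : ∀ t ∈ rest, 1 ≤ t) :
    chain q a n rest * rf q ((n : ℤ) - s) * (chain q a s rest)⁻¹ ∈ S := by
  rcases Nat.lt_or_ge n s with hns | hns
  · rw [rf_neg (by omega : (n : ℤ) - s < 0)]; simpa using S.zero_mem
  · have key : ∀ c d : ℕ, s + c = n + d → False ∨ True := fun _ _ _ => Or.inr trivial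
    have main : ∀ u v : ℕ, v ≤ u → u - v = n - s → 
        fac q u * rf q ((n : ℤ) - s) * (fac q v)⁻¹ ∈ S := by
      intro u v huv huv'
      have g := gauss_mem h hq u (v : ℤ)
      have e : (u : ℤ) - v = (n : ℤ) - s := by omega
      rw [e, rf_nat] at g
      have e' : fac q u * rf q ((n : ℤ) - s) * (fac q v)⁻¹
        = fac q u * (fac q v)⁻¹ * rf q ((n : ℤ) - s) := by ring
      rw [e']; exact g
    cases rest with
    | nil =>
      simp only [chain]
      exact main _ _ (by omega) (by omega)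
    | cons n' rest =>
      simp only [chain]
      have e : fac q (n + n') * chain q a n' rest * rf q ((n : ℤ) - s) *
          (fac q (s + n') * chain q a n' rest)⁻¹
          = fac q (n + n') * rf q ((n : ℤ) - s) * (fac q (s + n'))⁻¹ := by
        have := chain_ne h a n' rest
        have := fac_ne h (s + n')
        field_simp
      rw [e]
      exact main _ _ (by omega) (by omega)

/-- the inner sum can be cut at `s`. -/
lemma inner_cut (W : ℕ → K) (rest : List ℕ) {s n : ℕ} (hs : s ≤ n) :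
    ∑ k ∈ range (n + 1), W k * rho q k s * (rest.map (fun t : ℕ => rho q k t)).prod
      = ∑ k ∈ range (s + 1), W k * rho q k s * (rest.map (fun t : ℕ => rho q k t)).prod := by
  refine (Finset.sum_subset (Finset.range_subset_range.mpr (by omega)) ?_).symm
  intro k _ hk
  rw [rho_zero_of_lt (by simp only [Finset.mem_range, not_lt] at hk; omega)]
  ring

/-- general step. -/
theorem step_gen (h : Adm q) {S : Subsemiring K} (hq : q ∈ S) 
    (a : ℕ) (W W' g : ℕ → K) (n n' : ℕ) (rest : List ℕ) (han : a ≤ n)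
    (hr : ∀ t ∈ rest, 1 ≤ t) (c : ℕ → K) (hc : ∀ s, c s ∈ S)
    (hW : ∀ k, W k = g k * W' k) (hW0 : ∀ k, k < max a 1 → W' k = 0)
    (hk : ∀ k, g k * rho q k n' * rho q k n * fac q (n + n')
      = ∑ s ∈ range (n + 1), (c s * (rf q ((n : ℤ) - s) * rf q ((n' : ℤ) - s))) * rho q k s)
    (ih : ∀ s, max a 1 ≤ s → s ≤ n → SS q a W' s rest ∈ S) :
    SS q a W n (n' :: rest) ∈ S := by
  have e1 : SS q a W n (n' :: rest) = ∑ s ∈ range (n + 1),
      fac q (n - a) * chain q a n' rest * (c s * (rf q ((n : ℤ) - s) * rf q ((n' : ℤ) - s))) *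
      ∑ k ∈ range (s + 1), W' k * rho q k s * (rest.map (fun t : ℕ => rho q k t)).prod := by
    unfold SS
    simp only [chain, List.map_cons, List.prod_cons]
    have : ∀ s ∈ range (n + 1), 
      fac q (n - a) * chain q a n' rest * (c s * (rf q ((n : ℤ) - s) * rf q ((n' : ℤ) - s))) *
      ∑ k ∈ range (s + 1), W' k * rho q k s * (rest.map (fun t : ℕ => rho q k t)).prod
      = ∑ k ∈ range (n + 1), fac q (n - a) * chain q a n' rest *
        (W' k * (rest.map (fun t : ℕ => rho q k t)).prod) *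
        ((c s * (rf q ((n : ℤ) - s) * rf q ((n' : ℤ) - s))) * rho q k s) := by
      intro s hs
      rw [← inner_cut W' rest (by have := Finset.mem_range.mp hs; omega : s ≤ n), Finset.mul_sum]
      refine Finset.sum_congr rfl (fun k _ => ?_)
      ring
    rw [Finset.sum_congr rfl this, Finset.sum_comm, Finset.mul_sum]
    refine Finset.sum_congr rfl (fun k _ => ?_)
    rw [← Finset.mul_sum, ← hk, hW]
    ring
  rw [e1]
  refine S.sum_mem (fun s hs => ?_)
  have hsn : s ≤ n := by have := Finset.mem_range.mp hs; omega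
  rcases Nat.lt_or_ge s (max a 1) with hs1 | hs1
  · rw [Finset.sum_eq_zero, mul_zero]
    · exact S.zero_mem
    · intro k hk'
      rw [hW0 k (by have := Finset.mem_range.mp hk'; omega)]
      ring
  · have hh := ih s hs1 hsn
    have has : a ≤ s := le_trans (le_max_left _ _) hs1
    have h1s : 1 ≤ s := le_trans (le_max_right _ _) hs1
    have g1 := gauss_mem h hq (n - a) ((s : ℤ) - a)
    have e2 : ((n - a : ℕ) : ℤ) - ((s : ℤ) - a) = n - s := by omega
    have e3 : (s : ℤ) - a = ((s - a : ℕ) : ℤ) := by omega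
    rw [e2, e3, rf_nat] at g1
    have g2 := chain_div h hq a n' s rest h1s hr
    have := S.mul_mem (hc s) (S.mul_mem (S.mul_mem g1 g2) hh)
    convert this using 1
    unfold SS
    have n1 := fac_ne h (s - a)
    have n2 := chain_ne h a s rest
    field_simp

theorem stepA (h : Adm q) {S : Subsemiring K} (hq : q ∈ S) (hq' : q⁻¹ ∈ S)
    (a : ℕ) (W W' : ℕ → K) (n n' : ℕ) (rest : List ℕ) (han : a ≤ n)
    (hr : ∀ t ∈ rest, 1 ≤ t)
    (hW : ∀ k, W k = q ^ ((k : ℤ) ^ 2) * W' k) (hW0 : ∀ k, k < max a 1 → W' k = 0)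
    (ih : ∀ s, max a 1 ≤ s → s ≤ n → SS q a W' s rest ∈ S) :
    SS q a W n (n' :: rest) ∈ S :=
  step_gen h hq a W W' (fun k => q ^ ((k : ℤ) ^ 2)) n n' rest han hr
    (fun s => q ^ ((s : ℤ) ^ 2)) (fun s => zpow_mem' hq hq' _) hW hW0
    (fun k => kernelA h n n' k) ih

theorem stepB (h : Adm q) {S : Subsemiring K} (hq : q ∈ S) (hq' : q⁻¹ ∈ S)
    (a : ℕ) (W : ℕ → K) (n n' : ℕ) (rest : List ℕ) (han : a ≤ n)
    (hr : ∀ t ∈ rest, 1 ≤ t) (hW0 : ∀ k, k < max a 1 → W k = 0)
    (ih : ∀ s, max a 1 ≤ s → s ≤ n → SS q a W s rest ∈ S) :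
    SS q a W n (n' :: rest) ∈ S :=
  step_gen h hq a W W (fun _ => 1) n n' rest han hr
    (fun s => q ^ (((n : ℤ) - s) * (n' - s))) (fun s => zpow_mem' hq hq' _)
    (fun k => by rw [one_mul]) hW0
    (fun k => by rw [one_mul]; exact kernelB h n n' k) ih

/-- step for `m = 1`. -/
theorem step_one (h : Adm q) {S : Subsemiring K} (hq : q ∈ S) 
    (a : ℕ) (W W' g : ℕ → K) (n : ℕ) (han : a ≤ n)
    (c : ℕ → K) (hc : ∀ s, c s ∈ S)
    (hW : ∀ k, W k = g k * W' k) (hW0 : ∀ k, k < max a 1 → W' k = 0)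
    (hk : ∀ k, g k * rho q k n
      = ∑ s ∈ range (n + 1), (c s * rf q ((n : ℤ) - s)) * rho q k s)
    (ih : ∀ s, max a 1 ≤ s → s ≤ n → SS q a W' s [] ∈ S) :
    SS q a W n [] ∈ S := by
  have e1 : SS q a W n [] = ∑ s ∈ range (n + 1),
      fac q (n - a) * fac q (n + a - 1) * (c s * rf q ((n : ℤ) - s)) *
      ∑ k ∈ range (s + 1), W' k * rho q k s * (([] : List ℕ).map (fun t : ℕ => rho q k t)).prod := by
    unfold SS
    simp only [chain]
    have : ∀ s ∈ range (n + 1), 
      fac q (n - a) * fac q (n + a - 1) * (c s * rf q ((n : ℤ) - s)) *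
      ∑ k ∈ range (s + 1), W' k * rho q k s * (([] : List ℕ).map (fun t : ℕ => rho q k t)).prod
      = ∑ k ∈ range (n + 1), fac q (n - a) * fac q (n + a - 1) *
        W' k * ((c s * rf q ((n : ℤ) - s)) * rho q k s) := by
      intro s hs
      rw [← inner_cut W' [] (by have := Finset.mem_range.mp hs; omega : s ≤ n), Finset.mul_sum]
      refine Finset.sum_congr rfl (fun k _ => ?_)
      simp only [List.map_nil, List.prod_nil]
      ring
    rw [Finset.sum_congr rfl this, Finset.sum_comm, Finset.mul_sum]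
    refine Finset.sum_congr rfl (fun k _ => ?_)
    rw [← Finset.mul_sum, ← hk, hW]
    simp only [List.map_nil, List.prod_nil]
    ring
  rw [e1]
  refine S.sum_mem (fun s hs => ?_)
  have hsn : s ≤ n := by have := Finset.mem_range.mp hs; omega
  rcases Nat.lt_or_ge s (max a 1) with hs1 | hs1
  · rw [Finset.sum_eq_zero, mul_zero]
    · exact S.zero_mem
    · intro k hk'
      rw [hW0 k (by have := Finset.mem_range.mp hk'; omega)]
      ring
  · have hh := ih s hs1 hsn
    have has : a ≤ s := le_trans (le_max_left _ _) hs1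
    have h1s : 1 ≤ s := le_trans (le_max_right _ _) hs1
    have g1 := gauss_mem h hq (n - a) ((s : ℤ) - a)
    have e2 : ((n - a : ℕ) : ℤ) - ((s : ℤ) - a) = n - s := by omega
    have e3 : (s : ℤ) - a = ((s - a : ℕ) : ℤ) := by omega
    rw [e2, e3, rf_nat] at g1
    have g2 := fac_div_le h hq (by omega : s + a - 1 ≤ n + a - 1)
    have := S.mul_mem (hc s) (S.mul_mem (S.mul_mem g1 g2) hh)
    convert this using 1
    unfold SS
    simp only [chain]
    have n1 := fac_ne h (s - a)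
    have n2 := fac_ne h (s + a - 1)
    field_simp

end Q203.QB
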